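import Pool.Agent.Lib.MP_95ac01_nt.Iface

/-!
# MP_95ac01_nt: REALZERO, every real cubic form in four variables has a zero of sup norm one
-/

set_option autoImplicit false

namespace Pool.Agent.Lib.MP_95ac01_nt.H87

open Cub Finset

theorem ivt_uIcc {g : ℝ → ℝ} (hg : Continuous g) (h : g (-1) * g 1 ≤ 0) :
    ∃ t : ℝ, -1 ≤ t ∧ t ≤ 1 ∧ g t = 0 := by
  have h0 : (0 : ℝ) ∈ Set.uIcc (g (-1)) (g 1) := by
    rw [Set.mem_uIcc]
    rcases le_total (g (-1)) 0 with h1 | h1
    · rcases le_total 0 (g 1) with h2 | h2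
      · exact Or.inl ⟨h1, h2⟩
      · have h3 : g (-1) * g 1 = 0 := le_antisymm h (mul_nonneg_of_nonpos_of_nonpos h1 h2)
        rcases mul_eq_zero.1 h3 with h4 | h4
        · exact Or.inr ⟨h2, h4.ge⟩
        · exact Or.inl ⟨h1, h4.ge⟩
    · rcases le_total 0 (g 1) with h2 | h2
      · have h3 : g (-1) * g 1 = 0 := le_antisymm h (mul_nonneg h1 h2)
        rcases mul_eq_zero.1 h3 with h4 | h4
        · exact Or.inl ⟨h4.le, h2⟩
        · exact Or.inr ⟨h4.le, h1⟩
      · exact Or.inr ⟨h2, h1⟩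
  have h1 := intermediate_value_uIcc (f := g) (a := -1) (b := 1) hg.continuousOn h0
  obtain ⟨t, ht, htz⟩ := h1
  rw [Set.uIcc_of_le (by norm_num)] at ht
  exact ⟨t, ht.1, ht.2, htz⟩

theorem realzero : RealZeroStatement := by
  intro c
  have hc : ∀ (j : Fin 4) (x : Fin 4 → ℝ), Continuous fun t => ev c (Function.update x j t) :=
    fun j x => continuous_iff_continuousAt.2 fun t => (hasDerivAt_ev c j x t).continuousAt
  have e1 : Function.update (![0, 1, 0, 0] : Fin 4 → ℝ) 0 1 =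
      Function.update (![1, 0, 0, 0] : Fin 4 → ℝ) 1 1 := by
    funext i; fin_cases i <;> simp [Function.update]
  have e2 : Function.update (![0, 1, 0, 0] : Fin 4 → ℝ) 0 (-1) =
      -Function.update (![1, 0, 0, 0] : Fin 4 → ℝ) 1 (-1) := by
    funext i; fin_cases i <;> simp [Function.update]
  rcases le_total (ev c (Function.update (![1, 0, 0, 0] : Fin 4 → ℝ) 1 (-1)) *
      ev c (Function.update (![1, 0, 0, 0] : Fin 4 → ℝ) 1 1)) 0 with h | h
  · obtain ⟨t, h1, h2, h3⟩ := ivt_uIcc (hc 1 ![1, 0, 0, 0]) h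
    refine ⟨_, ?_, ⟨0, ?_⟩, h3⟩
    · intro i
      fin_cases i <;> simp [Function.update, abs_le, h1, h2]
    · simp [Function.update]
  · have h' : ev c (Function.update (![0, 1, 0, 0] : Fin 4 → ℝ) 0 (-1)) *
        ev c (Function.update (![0, 1, 0, 0] : Fin 4 → ℝ) 0 1) ≤ 0 := by
      rw [e1, e2, ev_neg_x]
      linarith
    obtain ⟨t, h1, h2, h3⟩ := ivt_uIcc (hc 0 ![0, 1, 0, 0]) h'
    refine ⟨_, ?_, ⟨1, ?_⟩, h3⟩
    · intro i
      fin_cases i <;> simp [Function.update, abs_le, h1, h2]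
    · simp [Function.update]

end Pool.Agent.Lib.MP_95ac01_nt.H87
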