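import Pool.Agent.Lib.MP_95ac01_nt.Iface

/-!
# MP_95ac01_nt: TRANS, translation between polynomials and coefficient vectors
-/

set_option autoImplicit false

namespace Pool.Agent.Lib.MP_95ac01_nt.H87

open Cub Finset

/-- The exponent vector of `m` as a finitely supported function. -/
noncomputable def expo (m : Mon) : Fin 4 →₀ ℕ :=
  Finsupp.equivFunOnFinite.symm fun i => ((m.1 i : Fin 4) : ℕ)

theorem expo_apply (m : Mon) (i : Fin 4) : expo m i = ((m.1 i : Fin 4) : ℕ) := rfl

theorem expo_injective : Function.Injective expo := by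
  intro m m' h
  apply Subtype.ext
  funext i
  apply Fin.ext
  have := DFunLike.congr_fun h i
  simpa [expo_apply] using this

theorem degree_expo (m : Mon) : (expo m).degree = 3 := by
  rw [Finsupp.degree_eq_sum]
  simpa [expo_apply] using m.2

theorem exists_expo (s : Fin 4 →₀ ℕ) (hs : s.degree = 3) : ∃ m : Mon, expo m = s := by
  rw [Finsupp.degree_eq_sum] at hs
  have hle : ∀ i, s i < 4 := by
    intro i
    have : s i ≤ ∑ j, s j := Finset.single_le_sum (fun j _ => Nat.zero_le _) (Finset.mem_univ i)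
    omega
  refine ⟨⟨fun i => ⟨s i, hle i⟩, by simpa using hs⟩, ?_⟩
  ext i
  rfl

/-- The polynomial with coefficient vector `c`. -/
noncomputable def toP (c : Mon → ℤ) : MvPolynomial (Fin 4) ℤ :=
  ∑ m, MvPolynomial.monomial (expo m) (c m)

theorem coeff_toP (c : Mon → ℤ) (m : Mon) : (toP c).coeff (expo m) = c m := by
  classical
  unfold toP
  rw [MvPolynomial.coeff_sum, Finset.sum_eq_single m]
  · simp
  · intro b _ hb
    rw [MvPolynomial.coeff_monomial, if_neg]
    exact fun h => hb (expo_injective h)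
  · simp

theorem coeff_toP_of_ne (c : Mon → ℤ) (s : Fin 4 →₀ ℕ) (hs : ∀ m, expo m ≠ s) :
    (toP c).coeff s = 0 := by
  classical
  unfold toP
  rw [MvPolynomial.coeff_sum]
  refine Finset.sum_eq_zero fun m _ => ?_
  rw [MvPolynomial.coeff_monomial, if_neg (hs m)]

theorem toP_injective : Function.Injective toP := by
  intro c d h
  funext m
  rw [← coeff_toP c m, h, coeff_toP]

theorem toP_homogeneous (c : Mon → ℤ) : (toP c).IsHomogeneous 3 := by
  unfold toP
  exact MvPolynomial.IsHomogeneous.sum _ _ _ fun m _ =>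
    MvPolynomial.isHomogeneous_monomial _ (degree_expo m)

theorem toP_surj (f : MvPolynomial (Fin 4) ℤ) (hf : f.IsHomogeneous 3) :
    toP (fun m => f.coeff (expo m)) = f := by
  ext s
  by_cases hs : ∃ m, expo m = s
  · obtain ⟨m, rfl⟩ := hs
    rw [coeff_toP]
  · rw [coeff_toP_of_ne _ _ fun m hm => hs ⟨m, hm⟩, hf.coeff_eq_zero]
    intro hd
    exact hs (exists_expo s hd)

theorem aeval_toP {R : Type*} [CommRing R] (c : Mon → ℤ) (x : Fin 4 → R) :
    MvPolynomial.aeval x (toP c) = ev (cc R c) x := by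
  unfold toP ev
  rw [map_sum]
  refine Finset.sum_congr rfl fun m _ => ?_
  rw [MvPolynomial.aeval_monomial, Finsupp.prod_fintype _ _ (fun i => pow_zero _)]
  simp [cc, mv, expo_apply]

theorem bound_toP (H : ℕ) (c : Mon → ℤ) :
    (∀ s, |(toP c).coeff s| ≤ (H : ℤ)) ↔ c ∈ box H := by
  rw [mem_box]
  constructor
  · intro h m
    rw [← coeff_toP c m]
    exact h _
  · intro h s
    by_cases hs : ∃ m, expo m = s
    · obtain ⟨m, rfl⟩ := hs
      rw [coeff_toP]
      exact h m
    · rw [coeff_toP_of_ne _ _ fun m hm => hs ⟨m, hm⟩]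
      simp

theorem ncard_eq (H : ℕ) (P : MvPolynomial (Fin 4) ℤ → Prop) (S : Finset (Mon → ℤ))
    (hS : ∀ c, c ∈ S ↔ c ∈ box H ∧ P (toP c)) :
    ({f : MvPolynomial (Fin 4) ℤ | f.IsHomogeneous 3 ∧ (∀ m, |f.coeff m| ≤ (H : ℤ)) ∧ P f} :
      Set (MvPolynomial (Fin 4) ℤ)).ncard = S.card := by
  have h : ({f : MvPolynomial (Fin 4) ℤ | f.IsHomogeneous 3 ∧ (∀ m, |f.coeff m| ≤ (H : ℤ)) ∧ P f} :
      Set (MvPolynomial (Fin 4) ℤ)) = toP '' (S : Set (Mon → ℤ)) := by
    ext f
    constructor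
    · rintro ⟨h1, h2, h3⟩
      refine ⟨fun m => f.coeff (expo m), ?_, toP_surj f h1⟩
      rw [Finset.mem_coe, hS, ← bound_toP, toP_surj f h1]
      exact ⟨h2, h3⟩
    · rintro ⟨c, hc, rfl⟩
      rw [Finset.mem_coe, hS, ← bound_toP] at hc
      exact ⟨toP_homogeneous c, hc.1, hc.2⟩
  rw [h, Set.ncard_image_of_injective _ toP_injective, Set.ncard_coe_finset]

theorem trans : TransStatement := by
  classical
  constructor
  · intro H
    refine ncard_eq H _ _ fun c => ?_
    rw [ratSet, Finset.mem_filter]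
    simp only [RatZ, aeval_toP]
  · intro H
    refine ncard_eq H (fun f => (∃ x : Fin 4 → ℝ, x ≠ 0 ∧ MvPolynomial.aeval x f = 0) ∧
      ∀ (p : ℕ) [Fact p.Prime], ∃ x : Fin 4 → Padic p, x ≠ 0 ∧ MvPolynomial.aeval x f = 0) _
      fun c => ?_
    rw [locSet, Finset.mem_filter]
    simp only [LocZ, RealZ, PadZ, aeval_toP]

end Pool.Agent.Lib.MP_95ac01_nt.H87
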